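import Pool.Agent.H525.QF.Stm

/-!
# Sums of the Möbius function over monic polynomials
-/

set_option linter.unusedSectionVars false

namespace Pool.Agent.H297.QF

open Polynomial
open Pool.Agent.H985.Chow (mob)
open Pool.Agent.H525.QF
open scoped Classical

section mob

variable {K : Type} [Field K]

theorem mob_of_not {F : K[X]} (h : ¬ Squarefree F) : mob F = 0 := by
  unfold mob
  rw [if_neg h]

theorem mob_one : mob (1 : K[X]) = 1 := by
  unfold mob
  rw [if_pos squarefree_one]
  have h : UniqueFactorizationMonoid.factors (1 : K[X]) = 0 :=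
    UniqueFactorizationMonoid.factors_one
  rw [h]
  simp

theorem mob_irr_sq (P g : K[X]) (hP : Irreducible P) (hg : g ≠ 0)
    (hs : Squarefree (P * g)) : mob (P * g) = - mob g := by
  have hsg : Squarefree g := hs.squarefree_of_dvd (dvd_mul_left _ _)
  unfold mob
  rw [if_pos hs, if_pos hsg]
  have hPg : P * g ≠ 0 := mul_ne_zero hP.ne_zero hg
  have h1 : Multiset.Rel Associated (UniqueFactorizationMonoid.factors (P * g))
      (P ::ₘ UniqueFactorizationMonoid.factors g) := by
    refine UniqueFactorizationMonoid.factors_unique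
      (fun x hx => UniqueFactorizationMonoid.irreducible_of_factor x hx) ?_ ?_
    · intro x hx
      rcases Multiset.mem_cons.mp hx with h | h
      · rw [h]; exact hP
      · exact UniqueFactorizationMonoid.irreducible_of_factor x h
    · rw [Multiset.prod_cons]
      exact (UniqueFactorizationMonoid.factors_prod hPg).trans
        ((UniqueFactorizationMonoid.factors_prod hg).symm.mul_left P)
  rw [Multiset.card_eq_card_of_rel h1, Multiset.card_cons, pow_succ]
  ring

theorem sqf_mul {P g : K[X]} (hP : Irreducible P) (hsg : Squarefree g) (h : ¬ P ∣ g) :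
    Squarefree (P * g) := by
  have hcop : IsCoprime P g := by
    rw [hP.coprime_iff_not_dvd]
    exact h
  exact squarefree_mul_iff.2 ⟨hcop.isRelPrime, hP.squarefree, hsg⟩

theorem mob_irr_mul {P g : K[X]} (hP : Irreducible P) (hg : g ≠ 0) (h : ¬ P ∣ g) :
    mob (P * g) = - mob g := by
  by_cases hsg : Squarefree g
  · exact mob_irr_sq P g hP hg (sqf_mul hP hsg h)
  · rw [mob_of_not hsg, mob_of_not, neg_zero]
    exact fun h' => hsg (h'.squarefree_of_dvd (dvd_mul_left _ _))

theorem not_dvd_of_sqf {P g : K[X]} (hP : Irreducible P) (h : Squarefree (P * g)) : ¬ P ∣ g := by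
  intro hd
  exact hP.not_isUnit (h P (mul_dvd_mul_left P hd))

theorem mob_irr_dvd {P g : K[X]} (hP : Irreducible P) (h : P ∣ g) : mob (P * g) = 0 :=
  mob_of_not fun h' => not_dvd_of_sqf hP h' h

end mob

section sums

variable {K : Type} [Field K] [Fintype K]

/-- the sum of the Möbius function over the divisors -/
theorem sum_mdiv {f : K[X]} (hf : f.Monic) (h1 : f ≠ 1) : ∑ d ∈ mdiv f, mob d = 0 := by
  have hf0 : f ≠ 0 := hf.ne_zero
  have hfu : ¬ IsUnit f := fun h => h1 (hf.eq_one_of_isUnit h)
  obtain ⟨P, hPm, hPi, hPf⟩ := exists_monic_irreducible_factor f hfu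
  have h2 : ∑ d ∈ mdiv f, mob d = ∑ d ∈ (mdiv f).filter (fun d => Squarefree d), mob d := by
    rw [Finset.sum_filter]
    refine Finset.sum_congr rfl fun d _ => ?_
    split_ifs with h
    · rfl
    · exact mob_of_not h
  rw [h2]
  have hmem : ∀ d : K[X], d ∈ (mdiv f).filter (fun d => Squarefree d) ↔
      (d.Monic ∧ d ∣ f) ∧ Squarefree d := by
    intro d
    rw [Finset.mem_filter, mem_mdiv hf0]
  refine Finset.sum_involution (fun d _ => if P ∣ d then d /ₘ P else P * d) ?_ ?_ ?_ ?_
  · intro d hd
    rw [hmem] at hd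
    obtain ⟨⟨hdm, hdf⟩, hds⟩ := hd
    by_cases hPd : P ∣ d
    · obtain ⟨g, rfl⟩ := hPd
      have hg : P * g /ₘ P = g := mul_divByMonic_cancel_left g hPm
      have hg0 : g ≠ 0 := by
        rintro rfl
        exact hdm.ne_zero (mul_zero _)
      simp only [dvd_mul_right, if_true, hg]
      rw [mob_irr_mul hPi hg0 (not_dvd_of_sqf hPi hds)]
      ring
    · simp only [hPd, if_false]
      rw [mob_irr_mul hPi hdm.ne_zero hPd]
      ring
  · intro d hd _ heq
    rw [hmem] at hd
    obtain ⟨⟨hdm, hdf⟩, hds⟩ := hd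
    have hPpos := hPi.natDegree_pos
    by_cases hPd : P ∣ d
    · obtain ⟨g, rfl⟩ := hPd
      have hg : P * g /ₘ P = g := mul_divByMonic_cancel_left g hPm
      have hg0 : g ≠ 0 := by
        rintro rfl
        exact hdm.ne_zero (mul_zero _)
      simp only [dvd_mul_right, if_true, hg] at heq
      have h3 := congrArg natDegree heq
      rw [hPm.natDegree_mul' hg0] at h3
      omega
    · simp only [hPd, if_false] at heq
      have h3 := congrArg natDegree heq
      rw [hPm.natDegree_mul' hdm.ne_zero] at h3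
      omega
  · intro d hd
    rw [hmem] at hd
    rw [hmem]
    obtain ⟨⟨hdm, hdf⟩, hds⟩ := hd
    by_cases hPd : P ∣ d
    · obtain ⟨g, rfl⟩ := hPd
      have hg : P * g /ₘ P = g := mul_divByMonic_cancel_left g hPm
      simp only [dvd_mul_right, if_true, hg]
      exact ⟨⟨hPm.of_mul_monic_left hdm, (dvd_mul_left g P).trans hdf⟩,
        hds.squarefree_of_dvd (dvd_mul_left g P)⟩
    · simp only [hPd, if_false]
      refine ⟨⟨hPm.mul hdm, ?_⟩, sqf_mul hPi hds hPd⟩
      have hcop : IsCoprime P d := by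
        rw [hPi.coprime_iff_not_dvd]
        exact hPd
      exact hcop.mul_dvd hPf hdf
  · intro d hd
    rw [hmem] at hd
    obtain ⟨⟨hdm, hdf⟩, hds⟩ := hd
    by_cases hPd : P ∣ d
    · obtain ⟨g, rfl⟩ := hPd
      have hg : P * g /ₘ P = g := mul_divByMonic_cancel_left g hPm
      simp only [dvd_mul_right, if_true, hg, not_dvd_of_sqf hPi hds, if_false]
    · simp only [hPd, if_false, dvd_mul_right, if_true]
      exact mul_divByMonic_cancel_left d hPm

theorem mdiv_one : mdiv (1 : K[X]) = {1} := by
  ext d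
  rw [mem_mdiv one_ne_zero, Finset.mem_singleton]
  constructor
  · rintro ⟨h1, h2⟩
    exact h1.eq_one_of_isUnit (isUnit_of_dvd_one h2)
  · rintro rfl
    exact ⟨monic_one, dvd_rfl⟩

/-- a sum over the multiples of a monic polynomial -/
theorem sum_multiples {p : K[X]} (hp : p.Monic) (j : ℕ) (T : K[X] → ℤ) :
    ∑ b ∈ (mon K (p.natDegree + j)).filter (fun b => p ∣ b), T b = ∑ b ∈ mon K j, T (p * b) := by
  have h : (mon K (p.natDegree + j)).filter (fun b => p ∣ b) =
      (mon K j).image (fun b => p * b) := by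
    ext b
    rw [Finset.mem_filter, Finset.mem_image, mem_mon]
    constructor
    · rintro ⟨⟨h1, h2⟩, g, rfl⟩
      have hg : g.Monic := hp.of_mul_monic_left h1
      refine ⟨g, ?_, rfl⟩
      rw [mem_mon]
      refine ⟨hg, ?_⟩
      rw [hp.natDegree_mul hg] at h2
      omega
    · rintro ⟨g, hg, rfl⟩
      rw [mem_mon] at hg
      refine ⟨⟨hp.mul hg.1, ?_⟩, dvd_mul_right p g⟩
      rw [hp.natDegree_mul hg.1, hg.2]
  rw [h, Finset.sum_image]
  intro x _ y _ hxy
  exact mul_left_cancel₀ hp.ne_zero hxy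

theorem card_multiples {p : K[X]} (hp : p.Monic) {n : ℕ} (hn : p.natDegree ≤ n) :
    (∑ b ∈ (mon K n).filter (fun b => p ∣ b), (1 : ℤ)) =
      (Fintype.card K : ℤ) ^ (n - p.natDegree) := by
  obtain ⟨j, rfl⟩ := Nat.exists_eq_add_of_le hn
  rw [sum_multiples hp j, Finset.sum_const, card_mon, nsmul_eq_mul, mul_one,
    Nat.add_sub_cancel_left]
  push_cast
  rfl

theorem mon_zero : mon K 0 = {1} := by
  ext p
  rw [mem_mon, Finset.mem_singleton]
  constructor
  · rintro ⟨h1, h2⟩
    exact h1.natDegree_eq_zero.1 h2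
  · rintro rfl
    exact ⟨monic_one, natDegree_one⟩

theorem sum_mdiv_eq (f : K[X]) (T : K[X] → ℤ) (hf : f ≠ 0) :
    ∑ d ∈ mdiv f, T d =
      ∑ k ∈ Finset.range (f.natDegree + 1), ∑ d ∈ (mon K k).filter (fun d => d ∣ f), T d := by
  unfold mdiv
  rw [Finset.sum_biUnion]
  intro i _ j _ hij
  rw [Function.onFun, Finset.disjoint_left]
  intro d hd hd'
  rw [Finset.mem_filter, mem_mon] at hd hd'
  exact hij (hd.1.2.symm.trans hd'.1.2)

/-- the convolution identity -/
theorem conv (n : ℕ) : ∑ k ∈ Finset.range (n + 1), (Fintype.card K : ℤ) ^ (n - k) *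
    ∑ b ∈ mon K k, mob b = if n = 0 then 1 else 0 := by
  have h1 : ∑ f ∈ mon K n, ∑ d ∈ mdiv f, mob d = if n = 0 then 1 else 0 := by
    split_ifs with hn
    · rw [hn, mon_zero, Finset.sum_singleton, mdiv_one, Finset.sum_singleton, mob_one]
    · refine Finset.sum_eq_zero fun f hf => ?_
      rw [mem_mon] at hf
      refine sum_mdiv hf.1 ?_
      rintro rfl
      rw [natDegree_one] at hf
      exact hn hf.2.symm
  rw [← h1]
  have h2 : ∑ f ∈ mon K n, ∑ d ∈ mdiv f, mob d =
      ∑ f ∈ mon K n, ∑ k ∈ Finset.range (n + 1), ∑ d ∈ mon K k, if d ∣ f then mob d else 0 := by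
    refine Finset.sum_congr rfl fun f hf => ?_
    rw [mem_mon] at hf
    rw [sum_mdiv_eq f mob hf.1.ne_zero, hf.2]
    refine Finset.sum_congr rfl fun k _ => ?_
    rw [Finset.sum_filter]
  rw [h2, Finset.sum_comm]
  refine Finset.sum_congr rfl fun k hk => ?_
  rw [Finset.sum_comm, Finset.mul_sum]
  refine Finset.sum_congr rfl fun d hd => ?_
  rw [mem_mon] at hd
  rw [Finset.mem_range] at hk
  rw [← Finset.sum_filter]
  have h3 : ∑ f ∈ (mon K n).filter (fun f => d ∣ f), mob d =
      mob d * ∑ f ∈ (mon K n).filter (fun f => d ∣ f), (1 : ℤ) := by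
    rw [Finset.mul_sum, mul_one]
  rw [h3, card_multiples hd.1 (by omega), hd.2]
  ring

theorem sum_mon (k : ℕ) :
    ∑ b ∈ mon K k, mob b = if k = 0 then 1 else if k = 1 then -(Fintype.card K : ℤ) else 0 := by
  rcases k with _ | k
  · have h := conv (K := K) 0
    rw [Finset.sum_range_one, Nat.sub_self, pow_zero, one_mul, if_pos rfl] at h
    rw [h, if_pos rfl]
  · have h1 := conv (K := K) (k + 1)
    have h0 := conv (K := K) k
    rw [Finset.sum_range_succ, Nat.sub_self, pow_zero, one_mul, if_neg (Nat.succ_ne_zero k)] at h1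
    have h2 : ∑ i ∈ Finset.range (k + 1), (Fintype.card K : ℤ) ^ (k + 1 - i) *
        ∑ b ∈ mon K i, mob b = (Fintype.card K : ℤ) * if k = 0 then 1 else 0 := by
      rw [← h0, Finset.mul_sum]
      refine Finset.sum_congr rfl fun i hi => ?_
      rw [Finset.mem_range] at hi
      have h3 : k + 1 - i = (k - i) + 1 := by omega
      rw [h3, pow_succ]
      ring
    rw [h2] at h1
    rw [if_neg (Nat.succ_ne_zero k)]
    by_cases hk : k = 0
    · rw [if_pos hk, mul_one] at h1
      rw [if_pos (by omega)]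
      linarith
    · rw [if_neg hk, mul_zero, zero_add] at h1
      rw [if_neg (by omega)]
      exact h1

theorem filter_coprime {p : K[X]} (hp : Irreducible p) (k : ℕ) :
    (mon K k).filter (fun b => IsCoprime b p) = (mon K k).filter (fun b => ¬ p ∣ b) := by
  refine Finset.filter_congr fun b _ => ?_
  rw [isCoprime_comm, hp.coprime_iff_not_dvd]

theorem sum_coprime_low {p : K[X]} (hpm : p.Monic) (hp : Irreducible p) {k : ℕ}
    (hk : k < p.natDegree) :
    ∑ b ∈ (mon K k).filter (fun b => IsCoprime b p), mob b = ∑ b ∈ mon K k, mob b := by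
  rw [filter_coprime hp, Finset.filter_true_of_mem]
  intro b hb hd
  rw [mem_mon] at hb
  have := natDegree_le_of_dvd hd hb.1.ne_zero
  omega

theorem sum_coprime {p : K[X]} (hpm : p.Monic) (hp : Irreducible p) (j : ℕ) :
    ∑ b ∈ (mon K (p.natDegree + j)).filter (fun b => IsCoprime b p), mob b =
      ∑ b ∈ mon K (p.natDegree + j), mob b +
        ∑ b ∈ (mon K j).filter (fun b => IsCoprime b p), mob b := by
  have h1 := Finset.sum_filter_add_sum_filter_not (mon K (p.natDegree + j)) (fun b => p ∣ b) mob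
  rw [sum_multiples hpm j] at h1
  have h2 : ∑ b ∈ mon K j, mob (p * b) =
      - ∑ b ∈ (mon K j).filter (fun b => IsCoprime b p), mob b := by
    rw [filter_coprime hp, Finset.sum_filter, ← Finset.sum_neg_distrib]
    refine Finset.sum_congr rfl fun b hb => ?_
    rw [mem_mon] at hb
    by_cases hd : p ∣ b
    · rw [mob_irr_dvd hp hd, if_neg (not_not.2 hd), neg_zero]
    · rw [mob_irr_mul hp hb.1.ne_zero hd, if_pos hd]
  rw [h2] at h1
  rw [filter_coprime hp]
  linarith

theorem hp_aux {p : K[X]} (hpm : p.Monic) (hp : Irreducible p) : ∀ Y : ℕ,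
    (∑ k ∈ Finset.range (Y + 1), (Fintype.card K : ℤ) ^ (Y - k) *
      ∑ b ∈ (mon K k).filter (fun b => IsCoprime b p), mob b = 0) ∨
    (∑ k ∈ Finset.range (Y + 1), (Fintype.card K : ℤ) ^ (Y - k) *
      ∑ b ∈ (mon K k).filter (fun b => IsCoprime b p), mob b = 1) := by
  intro Y
  have hpos := hp.natDegree_pos
  induction Y using Nat.strong_induction_on with
  | _ Y ih =>
    by_cases hY : Y < p.natDegree
    · have h1 : ∑ k ∈ Finset.range (Y + 1), (Fintype.card K : ℤ) ^ (Y - k) *
          ∑ b ∈ (mon K k).filter (fun b => IsCoprime b p), mob b =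
          ∑ k ∈ Finset.range (Y + 1), (Fintype.card K : ℤ) ^ (Y - k) *
            ∑ b ∈ mon K k, mob b := by
        refine Finset.sum_congr rfl fun k hk => ?_
        rw [Finset.mem_range] at hk
        rw [sum_coprime_low hpm hp (by omega)]
      rw [h1, conv]
      by_cases h0 : Y = 0
      · right
        rw [if_pos h0]
      · left
        rw [if_neg h0]
    · obtain ⟨Z, hZ⟩ := Nat.exists_eq_add_of_le (not_lt.1 hY)
      have h1 : ∑ k ∈ Finset.range (Y + 1), (Fintype.card K : ℤ) ^ (Y - k) *
          ∑ b ∈ (mon K k).filter (fun b => IsCoprime b p), mob b =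
          ∑ k ∈ Finset.range (Z + 1), (Fintype.card K : ℤ) ^ (Z - k) *
            ∑ b ∈ (mon K k).filter (fun b => IsCoprime b p), mob b := by
        have h2 : Y + 1 = p.natDegree + (Z + 1) := by omega
        have h3 := conv (K := K) Y
        rw [if_neg (by omega), h2, Finset.sum_range_add] at h3
        rw [h2, Finset.sum_range_add]
        have h4 : ∑ k ∈ Finset.range p.natDegree, (Fintype.card K : ℤ) ^ (Y - k) *
            ∑ b ∈ (mon K k).filter (fun b => IsCoprime b p), mob b =
            ∑ k ∈ Finset.range p.natDegree, (Fintype.card K : ℤ) ^ (Y - k) *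
              ∑ b ∈ mon K k, mob b := by
          refine Finset.sum_congr rfl fun k hk => ?_
          rw [Finset.mem_range] at hk
          rw [sum_coprime_low hpm hp hk]
        have h5 : ∑ k ∈ Finset.range (Z + 1), (Fintype.card K : ℤ) ^ (Y - (p.natDegree + k)) *
            ∑ b ∈ (mon K (p.natDegree + k)).filter (fun b => IsCoprime b p), mob b =
            ∑ k ∈ Finset.range (Z + 1), (Fintype.card K : ℤ) ^ (Y - (p.natDegree + k)) *
              ∑ b ∈ mon K (p.natDegree + k), mob b +
            ∑ k ∈ Finset.range (Z + 1), (Fintype.card K : ℤ) ^ (Z - k) *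
              ∑ b ∈ (mon K k).filter (fun b => IsCoprime b p), mob b := by
          rw [← Finset.sum_add_distrib]
          refine Finset.sum_congr rfl fun k hk => ?_
          rw [Finset.mem_range] at hk
          have h6 : Y - (p.natDegree + k) = Z - k := by omega
          rw [sum_coprime hpm hp k, h6]
          ring
        rw [h4, h5]
        linarith
      rw [h1]
      exact ih Z (by omega)

end sums

theorem t_ms : S_ms := fun K _ _ k => sum_mon (K := K) k

theorem t_hp : S_hp := fun K _ _ p hpm hp Y => hp_aux (K := K) hpm hp Y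

end Pool.Agent.H297.QF
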